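import Mathlib

set_option autoImplicit false

namespace Pool.Agent.Results.MP_ba261c_co.BothPositions

/-- The linear orders `L i`, `i < d`, have intersection `le`. -/
def IsRealizer {P : Type} (le : P → P → Prop) {d : ℕ} (L : Fin d → P → P → Prop) : Prop :=
  (∀ i, (∀ a, L i a a) ∧ (∀ a b c, L i a b → L i b c → L i a c) ∧
    (∀ a b, L i a b → L i b a → a = b) ∧ (∀ a b, L i a b ∨ L i b a)) ∧
  ∀ a b, le a b ↔ ∀ i, L i a b

/-- The dimension of the order relation `le`: the least number of linear orders whose intersection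
is `le` (the infimum of the empty set is `⊤`; it does not occur for finite orders). -/
noncomputable def dim {P : Type} (le : P → P → Prop) : ℕ∞ :=
  ⨅ d : {d : ℕ // ∃ L : Fin d → P → P → Prop, IsRealizer le L}, ((d : ℕ) : ℕ∞)

/-- The order relation with the point `x` deleted. -/
def del {P : Type} (le : P → P → Prop) (x : P) : {y : P // y ≠ x} → {y : P // y ≠ x} → Prop :=
  fun a b => le a.1 b.1

/-- Deleting any point lowers the dimension. -/
def Irreducible' {P : Type} (le : P → P → Prop) : Prop :=
  ∀ x, dim (del le x) < dim le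

lemma exists_gap {P : Type} {le : P → P → Prop} (h : Irreducible' le) (x : P) :
    ∃ d : ℕ, (∃ L : Fin d → {y : P // y ≠ x} → {y : P // y ≠ x} → Prop,
      IsRealizer (del le x) L) ∧ ¬ ∃ L : Fin d → P → P → Prop, IsRealizer le L := by
  have h1 := h x
  unfold dim at h1
  rw [iInf_lt_iff] at h1
  obtain ⟨⟨d, hd⟩, h2⟩ := h1
  refine ⟨d, hd, fun hc => ?_⟩
  have h3 : (⨅ d : {d : ℕ // ∃ L : Fin d → P → P → Prop, IsRealizer le L}, ((d : ℕ) : ℕ∞)) ≤ d :=
    iInf_le (fun d : {d : ℕ // ∃ L : Fin d → P → P → Prop, IsRealizer le L} => ((d : ℕ) : ℕ∞))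
      ⟨d, hc⟩
  exact absurd (h2.trans_le h3) (lt_irrefl _)

open Classical in
/-- The core argument, for an order relation `le`: either `x` is the second element of a critical
pair, or deleting `x` does not lower the dimension. -/
lemma core {P : Type} [Finite P] (le : P → P → Prop) (hrefl : ∀ a, le a a)
    (htrans : ∀ a b c, le a b → le b c → le a c) (hanti : ∀ a b, le a b → le b a → a = b)
    (hirr : Irreducible' le) (x : P)
    (hJ : ∃ u, (∀ y, le y x → y ≠ x → le y u) ∧ ¬ le x u)
    (hM : ∃ y, ¬ le y x) :
    ∃ a, ¬ le a x ∧ ¬ le x a ∧ (∀ z, le a z → z ≠ a → le x z ∧ z ≠ x) ∧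
      (∀ z, le z x → z ≠ x → le z a ∧ z ≠ a) := by
  -- choose `u` maximal
  obtain ⟨u, ⟨hu1, hu2⟩, hmax⟩ : ∃ u, ((∀ y, le y x → y ≠ x → le y u) ∧ ¬ le x u) ∧
      ∀ z, le u z → z ≠ u → le x z := by
    by_contra hcon
    push Not at hcon
    -- strictly increasing sequence in a finite set
    let T : Set P := {u | (∀ y, le y x → y ≠ x → le y u) ∧ ¬ le x u}
    obtain ⟨u0, hu0⟩ := hJ
    have hstep : ∀ u : P, u ∈ T → ∃ z, z ∈ T ∧ le u z ∧ z ≠ u := by
      intro u hu
      obtain ⟨z, hz1, hz2, hz3⟩ := hcon u hu
      exact ⟨z, ⟨fun y hy hyx => htrans _ _ _ (hu.1 y hy hyx) hz1, hz3⟩, hz1, hz2⟩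
    -- minimal number of elements above
    have hwf : ∀ n : ℕ, ∀ u : P, u ∈ T → Set.ncard {z | le u z} = n → False := by
      intro n
      induction n using Nat.strong_induction_on with
      | _ n ih =>
        intro u hu hn
        obtain ⟨z, hz1, hz2, hz3⟩ := hstep u hu
        have hss : {w | le z w} ⊂ {w | le u w} := by
          constructor
          · intro w hw
            exact htrans _ _ _ hz2 hw
          · intro hc
            exact hz3 (hanti _ _ (hc (hrefl u)) hz2)
        have hlt := Set.ncard_lt_ncard hss (Set.toFinite _)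
        rw [hn] at hlt
        exact ih _ hlt z hz1 rfl
    exact hwf _ u0 hu0 rfl
  by_cases hux : le u x
  · -- `x` is the unique cover of `u`: contradiction with irreducibility
    exfalso
    have hne : u ≠ x := fun h => hu2 (h ▸ hrefl x)
    have hxz : ∀ z, le u z → z ≠ u → le x z := hmax
    obtain ⟨d, ⟨L, hL1, hL2⟩, hno⟩ := exists_gap hirr x
    rcases Nat.eq_zero_or_pos d with hd | hd
    · subst hd
      obtain ⟨y, hy⟩ := hM
      apply hy
      by_cases hyx : y = x
      · rw [hyx]; exact hrefl x
      · have := (hL2 ⟨y, hyx⟩ ⟨u, hne⟩).2 (fun i => i.elim0)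
        exact htrans _ _ _ this hux
    · apply hno
      let φ : P → {y : P // y ≠ x} := fun y => if h : y = x then ⟨u, hne⟩ else ⟨y, h⟩
      have hφx : φ x = ⟨u, hne⟩ := by simp [φ]
      have hφ : ∀ y (h : y ≠ x), φ y = ⟨y, h⟩ := by
        intro y h; simp [φ, h]
      have hφeq : ∀ y z, φ y = φ z → y = z ∨ (y = u ∧ z = x) ∨ (y = x ∧ z = u) := by
        intro y z h
        by_cases hy : y = x
        · by_cases hz : z = x
          · exact Or.inl (hy.trans hz.symm)
          · rw [hy, hφx, hφ z hz] at h
            exact Or.inr (Or.inr ⟨hy, (congrArg Subtype.val h).symm⟩)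
        · by_cases hz : z = x
          · rw [hz, hφx, hφ y hy] at h
            exact Or.inr (Or.inl ⟨congrArg Subtype.val h, hz⟩)
          · rw [hφ y hy, hφ z hz] at h
            exact Or.inl (congrArg Subtype.val h)
      have hle : ∀ y z, le y z → le (φ y).1 (φ z).1 := by
        intro y z h
        by_cases hy : y = x
        · by_cases hz : z = x
          · rw [hy, hz]; exact hrefl _
          · rw [hy, hφx, hφ z hz]
            rw [hy] at h
            exact htrans _ _ _ hux h
        · by_cases hz : z = x
          · rw [hz, hφx, hφ y hy]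
            rw [hz] at h
            exact hu1 y h hy
          · rw [hφ y hy, hφ z hz]
            exact h
      have hle' : ∀ y z, le (φ y).1 (φ z).1 → φ y ≠ φ z → le y z := by
        intro y z h hn
        by_cases hy : y = x
        · by_cases hz : z = x
          · rw [hy, hz]; exact hrefl _
          · rw [hy, hφx, hφ z hz] at h hn
            rw [hy]
            exact hxz z h (fun hc => hn (Subtype.ext hc.symm))
        · by_cases hz : z = x
          · rw [hz, hφx, hφ y hy] at h
            rw [hz]
            exact htrans _ _ _ h hux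
          · rw [hφ y hy, hφ z hz] at h
            exact h
      refine ⟨fun i y z => (φ y ≠ φ z ∧ L i (φ y) (φ z)) ∨ (φ y = φ z ∧ (y = x → z = x)), ?_, ?_⟩
      · intro i
        obtain ⟨l1, l2, l3, l4⟩ := hL1 i
        refine ⟨fun a => Or.inr ⟨rfl, fun h => h⟩, ?_, ?_, ?_⟩
        · rintro a b c (⟨h1, h2⟩ | ⟨h1, h2⟩) (⟨h3, h4⟩ | ⟨h3, h4⟩)
          · left
            refine ⟨fun hc => ?_, l2 _ _ _ h2 h4⟩
            rw [← hc] at h4
            exact h1 (l3 _ _ h2 h4)
          · left
            rw [← h3]
            exact ⟨h1, h2⟩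
          · left
            rw [h1]
            exact ⟨h3, h4⟩
          · right
            exact ⟨h1.trans h3, fun h => h4 (h2 h)⟩
        · rintro a b (⟨h1, h2⟩ | ⟨h1, h2⟩) (⟨h3, h4⟩ | ⟨h3, h4⟩)
          · exact absurd (l3 _ _ h2 h4) h1
          · exact absurd h3.symm h1
          · exact absurd h1.symm h3
          · rcases hφeq a b h1 with h | ⟨h, h'⟩ | ⟨h, h'⟩
            · exact h
            · exact absurd ((h4 h').symm.trans h).symm hne
            · exact absurd ((h2 h).symm.trans h').symm hne
        · intro a b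
          by_cases hab : φ a = φ b
          · rcases hφeq a b hab with h | ⟨h, h'⟩ | ⟨h, h'⟩
            · left; right
              exact ⟨hab, fun h'' => h ▸ h''⟩
            · left; right
              exact ⟨hab, fun _ => h'⟩
            · right; right
              exact ⟨hab.symm, fun _ => h⟩
          · rcases l4 (φ a) (φ b) with h | h
            · left; left; exact ⟨hab, h⟩
            · right; left; exact ⟨fun hc => hab hc.symm, h⟩
      · intro a b
        constructor
        · intro h i
          by_cases hab : φ a = φ b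
          · right
            refine ⟨hab, fun ha => ?_⟩
            rcases hφeq a b hab with h' | ⟨h', h''⟩ | ⟨h', h''⟩
            · exact h' ▸ ha
            · exact h''
            · rw [h', h''] at h
              exact absurd h hu2
          · left
            exact ⟨hab, (hL2 _ _).1 (hle a b h) i⟩
        · intro h
          by_cases hab : φ a = φ b
          · rcases h ⟨0, hd⟩ with ⟨h1, -⟩ | ⟨-, h2⟩
            · exact absurd hab h1
            · rcases hφeq a b hab with h' | ⟨h', h''⟩ | ⟨h', h''⟩
              · rw [h']; exact hrefl _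
              · rw [h', h'']; exact hux
              · exact absurd ((h2 h').symm.trans h'').symm hne
          · apply hle' a b _ hab
            apply (hL2 (φ a) (φ b)).2
            intro i
            rcases h i with ⟨-, h2⟩ | ⟨h1, -⟩
            · exact h2
            · exact absurd h1 hab
  · -- `u` and `x` are incomparable
    refine ⟨u, hux, hu2, ?_, ?_⟩
    · intro z hz hzu
      refine ⟨hmax z hz hzu, fun hc => hux (hc ▸ hz)⟩
    · intro z hz hzx
      exact ⟨hu1 z hz hzx, fun hc => hux (hc ▸ hz)⟩

section Main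

variable {P : Type} [PartialOrder P]

/-- The dimension of a poset. -/
noncomputable def dimension (P : Type) [PartialOrder P] : ℕ∞ := dim (fun a b : P => a ≤ b)

/-- Irreducible posets: deleting any element lowers the dimension. -/
def IsIrreducible (P : Type) [PartialOrder P] : Prop :=
  ∀ x : P, dimension {y : P // y ≠ x} < dimension P

/-- Join-irreducible elements (the empty set is allowed). -/
def JoinIrr (x : P) : Prop := ∀ S : Set P, IsLUB S x → x ∈ S

/-- Meet-irreducible elements (the empty set is allowed). -/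
def MeetIrr (x : P) : Prop := ∀ S : Set P, IsGLB S x → x ∈ S

/-- `(a, b)` is a critical pair. -/
def IsCritical (a b : P) : Prop :=
  (¬ a ≤ b ∧ ¬ b ≤ a) ∧ (∀ z, a < z → b < z) ∧ (∀ z, z < b → z < a)

/-- **In an irreducible poset every doubly irreducible element is the first element of a critical
pair and the second element of a critical pair.** -/
theorem result (P : Type) [PartialOrder P] [Finite P] (hP : IsIrreducible P) (x : P)
    (hJ : JoinIrr x) (hM : MeetIrr x) :
    (∃ b, IsCritical x b) ∧ (∃ a, IsCritical a x) := by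
  have hirr : Irreducible' (fun a b : P => a ≤ b) := hP
  -- the dual order is irreducible as well
  have hdual : ∀ (Q : Type) (le : Q → Q → Prop), dim (fun a b => le b a) ≤ dim le := by
    intro Q le
    unfold dim
    apply le_iInf
    rintro ⟨d, L, hL1, hL2⟩
    refine iInf_le_of_le ⟨d, fun i a b => L i b a, ?_, ?_⟩ le_rfl
    · intro i
      obtain ⟨l1, l2, l3, l4⟩ := hL1 i
      exact ⟨l1, fun a b c h h' => l2 _ _ _ h' h, fun a b h h' => l3 _ _ h' h,
        fun a b => l4 b a⟩
    · intro a b
      exact hL2 b a
  have hirr' : Irreducible' (fun a b : P => b ≤ a) := by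
    intro y
    have h1 : dim (del (fun a b : P => b ≤ a) y) ≤ dim (del (fun a b : P => a ≤ b) y) :=
      hdual _ (del (fun a b : P => a ≤ b) y)
    have h2 : dim (fun a b : P => a ≤ b) ≤ dim (fun a b : P => b ≤ a) :=
      hdual _ (fun a b : P => b ≤ a)
    exact (h1.trans_lt (hirr y)).trans_le h2
  -- `x` is not the greatest and not the least element
  have hnt : ∃ y, ¬ y ≤ x := by
    by_contra hc
    push Not at hc
    exact (hM ∅ (isGLB_empty_iff.2 hc)).elim
  have hnb : ∃ y, ¬ x ≤ y := by
    by_contra hc
    push Not at hc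
    exact (hJ ∅ (isLUB_empty_iff.2 hc)).elim
  have hJ' : ∃ u, (∀ y, y ≤ x → y ≠ x → y ≤ u) ∧ ¬ x ≤ u := by
    by_contra hc
    push Not at hc
    have : x ∈ {y | y ≤ x ∧ y ≠ x} := hJ _ ⟨fun y hy => hy.1, fun u hu =>
      hc u (fun y hy hyx => hu ⟨hy, hyx⟩)⟩
    exact this.2 rfl
  have hM' : ∃ u, (∀ y, x ≤ y → y ≠ x → u ≤ y) ∧ ¬ u ≤ x := by
    by_contra hc
    push Not at hc
    have : x ∈ {y | x ≤ y ∧ y ≠ x} := hM _ ⟨fun y hy => hy.1, fun u hu =>
      hc u (fun y hy hyx => hu ⟨hy, hyx⟩)⟩
    exact this.2 rfl
  constructor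
  · obtain ⟨a, h1, h2, h3, h4⟩ := core (fun a b : P => b ≤ a) (fun a => le_refl a)
      (fun a b c h h' => le_trans h' h) (fun a b h h' => le_antisymm h' h) hirr' x hM' hnb
    refine ⟨a, ⟨h1, h2⟩, ?_, ?_⟩
    · intro z hz
      have := h4 z hz.le hz.ne'
      exact lt_of_le_of_ne this.1 this.2.symm
    · intro z hz
      have := h3 z hz.le hz.ne
      exact lt_of_le_of_ne this.1 this.2
  · obtain ⟨a, h1, h2, h3, h4⟩ := core (fun a b : P => a ≤ b) (fun a => le_refl a)
      (fun a b c h h' => le_trans h h') (fun a b h h' => le_antisymm h h') hirr x hJ' hnt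
    refine ⟨a, ⟨h1, h2⟩, ?_, ?_⟩
    · intro z hz
      have := h3 z hz.le hz.ne'
      exact lt_of_le_of_ne this.1 this.2.symm
    · intro z hz
      have := h4 z hz.le hz.ne
      exact lt_of_le_of_ne this.1 this.2

end Main

end Pool.Agent.Results.MP_ba261c_co.BothPositions
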